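import Pool.Agent.H913R3.MH.Final
import Pool.Agent.H271R3.MH_Greedy
import Pool.Agent.H722R5.MHStep
import Pool.Agent.H525R3.MH_OneDim
import Pool.Agent.H234R4.MH_Cover
import Pool.Agent.H234R4.MH_Local
import Pool.Agent.H969MH.MH_Count
import Pool.Agent.H595R3.MH_BC
import Pool.Agent.H936R3.MH_Series

/-!
MP_3013d0_nt, Q1: the divergence case, for all `m, d ≥ 1`, all shifts `θ`, all non-increasing `ψ`
and all gauges `f` with (A) and `x ↦ x^(1-md) f(x)` increasing.

The set `W` contains `W_1 × [0,1]^{m(d-1)}`, where `W_1` is the limsup set of the first linear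
form.  A slicing argument reduces to one-dimensional limsup sets on lines; a pigeonhole covering
lemma gives local ubiquity on almost every line, and a greedy tree argument gives infinite measure.
-/

open H913R3.MH
open scoped ENNReal

namespace Pool.Agent.Results.MP_3013d0_nt.DivergenceCase

theorem result (m d : ℕ) (hm : 1 ≤ m) (hd : 1 ≤ d) (θ : Fin d → ℝ)
    (ψ : ℕ → ℝ) (hψ0 : ∀ n, 0 ≤ ψ n) (hψ : ∀ a b, 1 ≤ a → a ≤ b → ψ b ≤ ψ a)
    (f : ℝ → ℝ) (hfpos : ∀ x, 0 < x → 0 < f x)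
    (hA : ∃ s : ℝ, s < (m : ℝ) * d ∧ ∃ C : ℝ, ∀ x y, 0 < x → x < y →
      f y ≤ C * (y / x) ^ s * f x)
    (hg : ∀ x y, 0 < x → x < y →
      x ^ (1 - (m : ℤ) * d) * f x ≤ y ^ (1 - (m : ℤ) * d) * f y)
    (hdiv : ∑' q : {q : Fin m → ℤ // q ≠ 0},
      (if ψ (supN q.1) = 0 then 0 else
        ENNReal.ofReal ((supN q.1 : ℝ) ^ (m * d) *
          ψ (supN q.1) ^ (1 - (m : ℤ) * d) * f (ψ (supN q.1) / supN q.1))) = ⊤) :
    hausdorff f (W m d θ fun q => ψ (supN q)) = ⊤ :=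
  main_all (H525R3.MH.taskOneDim (taskStep taskGreedy)) (taskCount taskCover taskLocal)
    H595R3.MHBC.taskBC H936R3.MH.taskSeries m d hm hd θ ψ hψ0 hψ f hfpos hA hg hdiv

end Pool.Agent.Results.MP_3013d0_nt.DivergenceCase
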